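import Pool.Agent.W_4481e3_q87.GoR
import Pool.Agent.W_4481e3_tab.T9

/-!
Tree s00o9, data 5.
-/

namespace Pool.Agent.W_4481e3_rt.s00o9

open Pool.Agent.W_4481e3_q25.EvR

theorem k104 : ckO Pool.Agent.W_4481e3_tab.T9.tab 4372160 6498560 16777216 8388608 11862016 14483456 11 524288 524288 524288 524288 520890956 525954893 1950694 3743759 268408197 268447604 16777216 16777216 14628291 14628291 0x103000c03000c203000c03000c04000c12104000c04000c05000c06000c205070c1205070c1204000c05070c2106000cb283ec17a82a706000cb21b2842477a4eb7bb1b21204000c05029c204000c05029c21b21843a67b31a72 = true := by decide +kernel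

theorem k105 : ckO Pool.Agent.W_4481e3_tab.T9.tab 4372160 6498560 16777216 8388608 11862016 14483456 8 524288 524288 524288 524288 518484753 528794878 519838 968105 268414039 268449803 16777216 16777216 14628291 14628291 0x106000c06000c206000c107000c07000c1b2838247a31f707000cb21206000cbb121b2 = true := by decide +kernel

theorem k106 : ckO Pool.Agent.W_4481e3_tab.T9.tab 4372160 6498560 16777216 8388608 11862016 14483456 3 524288 524288 524288 524288 517718289 529292223 273212 497345 268411855 268448664 16777216 16777216 14628291 14628291 0x1bb1b2 = true := by decide +kernel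

theorem k107 : ckO Pool.Agent.W_4481e3_tab.T9.tab 4372160 6498560 16777216 8388608 11862016 14483456 1 524288 524288 524288 524288 517171865 529540896 273212 248673 268411855 268448664 16777216 16777216 14628291 14628291 0x1b = true := by decide +kernel

theorem k108 : ckO Pool.Agent.W_4481e3_tab.T9.tab 4372160 6498560 16777216 8388608 11862016 14483456 13 524288 524288 524288 524288 517308471 529043550 136606 248673 268411855 268448664 24091362 16777216 7314146 14628291 0x1bbb6b5b1b2b1b0000076bbb1b5b26b15b2bb51b2bbb6b000007b5b1b26bbb1b5b265bb6b51b2bb51b24 = true := by decide +kernel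

theorem k109 : ckO Pool.Agent.W_4481e3_tab.T9.tab 4372160 6498560 16777216 8388608 11862016 14483456 2 524288 524288 524288 524288 517035259 529178551 157935 135001 268412414 268446557 24091362 16777216 7314146 14628291 0x1bb1 = true := by decide +kernel

theorem k110 : ckO Pool.Agent.W_4481e3_tab.T9.tab 4372160 6498560 16777216 8388608 11862016 14483456 3 524288 524288 524288 524288 517114227 528978746 84361 70197 268412161 268446136 24091362 16777216 7314146 14628291 0x1bb5b1 = true := by decide +kernel

theorem k111 : ckO Pool.Agent.W_4481e3_tab.T9.tab 4372160 6498560 16777216 8388608 11862016 14483456 24 786432 262144 524288 524288 517063228 528881072 42182 70198 268412161 268446136 24091362 16777216 7314146 14628291 0x1bb6bbb165b2b1bb6bbb165b2b14aa4aa4388a38434aa4a3a0400aca34aa43438803001c4303001c403006c00011c434b000007bb110000c10000cb21b2bb61b10000c10000cb21b280300ec303001c403006c00011c4346bbb5615b2bbb6516bbb150f000c0f000c210000c10000c210f000c0f000c210000c10000c214aa4aa4388a38434aa3a0400ec4aa434310000c10000c210000cb2142bbbb656bbbb15b2bb51b2651bb52bb6bbb165b2165bb52bb6bbb165b21aa4aa4388a38434aa4a3a0400aca34aa43438803001c4303001c403006c00011c4346b000007582aef7a3787bbb16bbb5b165bbb16bbb5b1654829ac7a3be72aa4aa4388a38434aa3ba0604eca34aa43bb51643bbbb16bbb5b165b2bb2164bb1bbb6bbb165b2b16bbb6bbb165b2b164baa4aa4388a38434aa3a0400aca34aa434380401cc303001c403006c00005c43b2bb51465b2b000007bbb6b0000075165bb5216bb62829357a31e7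 = true := by decide +kernel

theorem k112 : ckO Pool.Agent.W_4481e3_tab.T9.tab 4372160 6498560 16777216 8388608 11862016 14483456 3 262144 262144 524288 524288 517249588 528832660 44159 37028 268411683 268446144 24091362 16777216 7314146 14628291 0x1bb6828a17a4607 = true := by decide +kernel

theorem k113 : ckO Pool.Agent.W_4481e3_tab.T9.tab 4372160 6498560 16777216 8388608 11862016 14483456 10 262144 262144 786432 262144 517228916 528663512 22080 37029 268411683 268446144 24091362 16777216 7314146 14628291 0x1aa4aa4388a38434bbb651aa4a3aaa4a34aa43aaa4a34aa43543b2bbbb156bbb6bbb165b2b165b24 = true := by decide +kernel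

end Pool.Agent.W_4481e3_rt.s00o9
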