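import Pool.Agent.W_4481e3_q87.GoR
import Pool.Agent.W_4481e3_tab.T9

/-!
Tree s00o9, data 8.
-/

namespace Pool.Agent.W_4481e3_rt.s00o9

open Pool.Agent.W_4481e3_q25.EvR

theorem k173 : ckO Pool.Agent.W_4481e3_tab.T9.tab 4372160 6498560 16777216 8388608 11862016 14483456 5 524288 524288 524288 524288 522526392 493837352 14344520 14344520 268435456 268435456 16777216 16777216 14628291 14628291 0x100000c00000c01000c201000c02000c21201000c01029c01007c121 = true := by decide +kernel

theorem k175 : ckO Pool.Agent.W_4481e3_tab.T9.tab 4372160 6498560 16777216 8388608 11862016 14483456 8 524288 524288 524288 524288 493837352 508181872 14344520 28689040 268435456 268435456 16777216 16777216 14628291 14628291 0x100000c00000c00000c00000c00000c02000c12100000c00000c200000c00000c202000c102000c02000c203000c04000c2121212 = true := by decide +kernel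

end Pool.Agent.W_4481e3_rt.s00o9
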